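import Mathlib
import Pool.Agent.H95.VG.Targets1
import Pool.Agent.H95.VG.Targets5

/-!
# VG module FBR (MP_6803f2_an): fibre bounds of the perturbed projections on the graph
-/

open MeasureTheory Set Filter Topology
open scoped ENNReal NNReal ContDiff ComplexConjugate
open Pool.Agent.H95.VG

namespace Pool.Agent.H37.VG

variable {n : ℕ}

theorem YY_diff {l : V (n + n) → V n} {U : Set (V (n + n))} (hl : DifferentiableOn ℂ l U)
    (P : V (n + n)) (Φ : Fin n → Fin n ⊕ Fin n) (ε : ℝ) :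
    DifferentiableOn ℂ (YY l P Φ ε) U := by
  rw [differentiableOn_pi]
  intro i
  have h1 : DifferentiableOn ℂ (fun Z => l Z i) U := (differentiableOn_pi.1 hl) i
  unfold YY
  refine h1.add ?_
  fun_prop

theorem HB_diff {N m k : ℕ} {U : Set (V N)} {G : V N → V m} {Y : V N → V k}
    (hG : DifferentiableOn ℂ G U) (hY : DifferentiableOn ℂ Y U)
    (B : Fin N → Fin m ⊕ Fin k → ℂ) (w : V k) :
    DifferentiableOn ℂ (HB B G Y w) U := by
  rw [differentiableOn_pi]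
  intro i
  unfold HB
  have hG' := differentiableOn_pi.1 hG
  have hY' := differentiableOn_pi.1 hY
  exact DifferentiableOn.add (DifferentiableOn.fun_sum fun j _ => (hG' j).const_mul _)
    (DifferentiableOn.fun_sum fun j _ => ((hY' j).sub_const _).const_mul _)

/-- constant of the perturbation estimate -/
noncomputable def CB {N m k : ℕ} (B : Fin N → Fin m ⊕ Fin k → ℂ) : ℝ :=
  ∑ i, ∑ j, ‖B i (Sum.inr j)‖

theorem CB_nonneg {N m k : ℕ} (B : Fin N → Fin m ⊕ Fin k → ℂ) : 0 ≤ CB B :=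
  Finset.sum_nonneg fun _ _ => Finset.sum_nonneg fun _ _ => norm_nonneg _

theorem HB_sub {N m k : ℕ} (B : Fin N → Fin m ⊕ Fin k → ℂ) (G : V N → V m) (Y Y' : V N → V k)
    (w w' : V k) (Z : V N) (e : ℝ) (he0 : 0 ≤ e)
    (he : ∀ j, ‖(Y Z j - w j) - (Y' Z j - w' j)‖ ≤ e) :
    ‖HB B G Y w Z - HB B G Y' w' Z‖ ≤ CB B * e := by
  rw [pi_norm_le_iff_of_nonneg (mul_nonneg (CB_nonneg B) he0)]
  intro i
  have h1 : (HB B G Y w Z - HB B G Y' w' Z) i
      = ∑ j, B i (Sum.inr j) * ((Y Z j - w j) - (Y' Z j - w' j)) := by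
    simp only [HB, Pi.sub_apply, mul_sub, Finset.sum_sub_distrib]
    ring
  rw [h1]
  calc ‖∑ j, B i (Sum.inr j) * ((Y Z j - w j) - (Y' Z j - w' j))‖
      ≤ ∑ j, ‖B i (Sum.inr j)‖ * e := by
        refine (norm_sum_le _ _).trans (Finset.sum_le_sum fun j _ => ?_)
        rw [norm_mul]
        exact mul_le_mul_of_nonneg_left (he j) (norm_nonneg _)
    _ = (∑ j, ‖B i (Sum.inr j)‖) * e := by rw [Finset.sum_mul]
    _ ≤ CB B * e := by
        refine mul_le_mul_of_nonneg_right ?_ he0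
        unfold CB
        exact Finset.single_le_sum (f := fun i => ∑ j, ‖B i (Sum.inr j)‖)
          (fun _ _ => Finset.sum_nonneg fun _ _ => norm_nonneg _) (Finset.mem_univ i)

/-- the linear part of the perturbation -/
noncomputable def LK {m : ℕ} (B : Fin (n + n) → Fin m ⊕ Fin n → ℂ) (Φ : Fin n → Fin n ⊕ Fin n) :
    V (n + n) →L[ℂ] V (n + n) :=
  ContinuousLinearMap.pi fun i => ∑ j, B i (Sum.inr j) •
    (ContinuousLinearMap.proj (finSumFinEquiv (Φ j)) : V (n + n) →L[ℂ] ℂ)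

theorem LK_apply {m : ℕ} (B : Fin (n + n) → Fin m ⊕ Fin n → ℂ) (Φ : Fin n → Fin n ⊕ Fin n)
    (Z : V (n + n)) (i : Fin (n + n)) :
    LK B Φ Z i = ∑ j, B i (Sum.inr j) * Z (finSumFinEquiv (Φ j)) := by
  simp [LK]

theorem HB_YY {m : ℕ} (B : Fin (n + n) → Fin m ⊕ Fin n → ℂ) (G : V (n + n) → V m)
    (l : V (n + n) → V n) (P : V (n + n)) (Φ : Fin n → Fin n ⊕ Fin n) (ε : ℝ) (w : V n)
    (Z : V (n + n)) :
    HB B G (YY l P Φ ε) w Z = HB B G l 0 Z + ((ε : ℂ) • LK B Φ Z +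
      ((-((ε : ℂ) • LK B Φ P)) - fun i => ∑ j, B i (Sum.inr j) * w j)) := by
  funext i
  simp only [HB, YY, Pi.add_apply, Pi.sub_apply, Pi.smul_apply, Pi.neg_apply, LK_apply,
    smul_eq_mul, Pi.zero_apply, sub_zero, Finset.mul_sum, mul_add, mul_sub,
    Finset.sum_add_distrib, Finset.sum_sub_distrib]
  have h1 : ∀ x : V (n + n), ∑ j, B i (Sum.inr j) * ((ε : ℂ) * x (finSumFinEquiv (Φ j)))
      = ∑ j, (ε : ℂ) * (B i (Sum.inr j) * x (finSumFinEquiv (Φ j))) := fun x =>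
    Finset.sum_congr rfl fun j _ => by ring
  rw [h1, h1]
  ring

theorem jac_bd {m : ℕ} {U : Set (V (n + n))} (hU : IsOpen U)
    (B : Fin (n + n) → Fin m ⊕ Fin n → ℂ) {G : V (n + n) → V m}
    {l : V (n + n) → V n} (hG : DifferentiableOn ℂ G U) (hl : DifferentiableOn ℂ l U)
    (P : V (n + n)) (Φ : Fin n → Fin n ⊕ Fin n) (ε : ℝ) (h0 : 0 ≤ ε) (h1 : ε ≤ 1) (w : V n)
    {Z : V (n + n)} (hZ : Z ∈ U) :
    ‖fderiv ℂ (HB B G (YY l P Φ ε) w) Z‖ ≤ ‖fderiv ℂ (HB B G l 0) Z‖ + ‖LK B Φ‖ := by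
  have hd : DifferentiableAt ℂ (HB B G l 0) Z :=
    ((HB_diff hG hl B 0) Z hZ).differentiableAt (hU.mem_nhds hZ)
  have hf : HasFDerivAt (HB B G (YY l P Φ ε) w)
      (fderiv ℂ (HB B G l 0) Z + (ε : ℂ) • LK B Φ) Z := by
    have h2 : HB B G (YY l P Φ ε) w = fun Z => HB B G l 0 Z + ((ε : ℂ) • LK B Φ Z +
      ((-((ε : ℂ) • LK B Φ P)) - fun i => ∑ j, B i (Sum.inr j) * w j)) := by
      funext Z'
      exact HB_YY B G l P Φ ε w Z'
    rw [h2]
    refine hd.hasFDerivAt.add ?_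
    exact HasFDerivAt.add_const _ ((LK B Φ).hasFDerivAt.const_smul (ε : ℂ))
  rw [hf.fderiv]
  refine (norm_add_le _ _).trans ?_
  gcongr
  rw [norm_smul]
  have h3 : ‖(ε : ℂ)‖ ≤ 1 := by
    rw [Complex.norm_real, Real.norm_eq_abs, abs_of_nonneg h0]; exact h1
  calc ‖(ε : ℂ)‖ * ‖LK B Φ‖ ≤ 1 * ‖LK B Φ‖ :=
        mul_le_mul_of_nonneg_right h3 (norm_nonneg _)
    _ = ‖LK B Φ‖ := one_mul _

theorem det_bd {N : ℕ} (A : Matrix (Fin N) (Fin N) ℂ) (x : ℝ) (hx : ∀ i j, ‖A i j‖ ≤ x) :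
    ‖A.det‖ ≤ (N.factorial : ℝ) * x ^ N := by
  rw [Matrix.det_apply]
  refine (norm_sum_le _ _).trans ?_
  calc ∑ σ : Equiv.Perm (Fin N), ‖Equiv.Perm.sign σ • ∏ i, A (σ i) i‖
      ≤ ∑ σ : Equiv.Perm (Fin N), x ^ N := by
        refine Finset.sum_le_sum fun σ _ => ?_
        have h1 : ‖Equiv.Perm.sign σ • ∏ i, A (σ i) i‖ = ‖∏ i, A (σ i) i‖ := by
          rcases Int.units_eq_one_or (Equiv.Perm.sign σ) with h | h <;> rw [h] <;> simp
        rw [h1, norm_prod]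
        calc ∏ i, ‖A (σ i) i‖ ≤ ∏ _i : Fin N, x :=
              Finset.prod_le_prod (fun _ _ => norm_nonneg _) fun i _ => hx _ _
          _ = x ^ N := by simp
    _ = (N.factorial : ℝ) * x ^ N := by
        simp [Fintype.card_perm]

theorem ek_norm_le {N : ℕ} (j : Fin N) : ‖(ek j : V N)‖ ≤ 1 := by
  rw [pi_norm_le_iff_of_nonneg zero_le_one]
  intro i
  unfold ek
  by_cases h : i = j
  · subst h; simp
  · simp [Pi.single_eq_of_ne h]

theorem jac_det_bd {N : ℕ} (H : V N → V N) (Z : V N) (M : ℝ) (hM : ‖fderiv ℂ H Z‖ ≤ M) :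
    ‖(jac H Z).det‖ ^ 2 ≤ ((N.factorial : ℝ) * M ^ N) ^ 2 := by
  have hM0 : 0 ≤ M := (norm_nonneg _).trans hM
  have h1 : ‖(jac H Z).det‖ ≤ (N.factorial : ℝ) * M ^ N := by
    refine det_bd _ _ fun i j => ?_
    simp only [jac, Matrix.of_apply]
    calc ‖fderiv ℂ H Z (ek j) i‖ ≤ ‖fderiv ℂ H Z (ek j)‖ := norm_le_pi_norm _ i
      _ ≤ ‖fderiv ℂ H Z‖ * ‖(ek j : V N)‖ := ContinuousLinearMap.le_opNorm _ _
      _ ≤ M * 1 := mul_le_mul hM (ek_norm_le j) (norm_nonneg _) hM0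
      _ = M := mul_one _
  exact pow_le_pow_left₀ (norm_nonneg _) h1 2

/-- nondegenerate points are isolated in their fibre -/
theorem isol {N : ℕ} (Y : V N → V N) (z : V N) (hd : DifferentiableAt ℂ Y z)
    (hj : (jac Y z).det ≠ 0) : ∀ᶠ z' in 𝓝 z, Y z' = Y z → z' = z := by
  have hinj : ∃ C : ℝ≥0, AntilipschitzWith C (fderiv ℂ Y z) := by
    have hmat : ∀ v : V N, fderiv ℂ Y z v = (jac Y z).mulVec v := by
      intro v
      have hv : v = ∑ j, v j • (ek j : V N) := by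
        funext i
        simp [ek, Finset.sum_apply, Pi.single_apply]
      conv_lhs => rw [hv]
      rw [map_sum]
      funext i
      simp only [map_smul, Finset.sum_apply, Pi.smul_apply, smul_eq_mul, Matrix.mulVec,
        dotProduct, jac, Matrix.of_apply]
      exact Finset.sum_congr rfl fun j _ => mul_comm _ _
    have hu : IsUnit (jac Y z).det := isUnit_iff_ne_zero.2 hj
    let T : V N →L[ℂ] V N := LinearMap.toContinuousLinearMap (Matrix.mulVecLin (jac Y z)⁻¹)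
    refine ⟨‖T‖₊, AddMonoidHomClass.antilipschitz_of_bound (fderiv ℂ Y z) fun v => ?_⟩
    have h1 : T (fderiv ℂ Y z v) = v := by
      rw [hmat]
      simp only [T, LinearMap.coe_toContinuousLinearMap', Matrix.mulVecLin_apply,
        Matrix.mulVec_mulVec, Matrix.nonsing_inv_mul _ hu, Matrix.one_mulVec]
    calc ‖v‖ = ‖T (fderiv ℂ Y z v)‖ := by rw [h1]
      _ ≤ ‖T‖ * ‖fderiv ℂ Y z v‖ := T.le_opNorm _
  have h2 := hd.hasFDerivAt.eventually_ne hinj (c := Y z)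
  rw [eventually_nhdsWithin_iff] at h2
  filter_upwards [h2] with z' hz' he
  by_contra hne
  exact hz' hne he

theorem isOpen_src {X : Type} [TopologicalSpace X] {ι : Type} {A : Atl n X ι}
    {f : V n → X} {I D : Set (V n)} (hM : Mro A f I D) (ho : IsOpen (D \ I)) (a : ι) :
    IsOpen {z | z ∈ D \ I ∧ f z ∈ (A.φ a).source} :=
  hM.cont.isOpen_inter_preimage ho (A.φ a).open_source

theorem encard_le_of_finset {α : Type*} (S : Set α) (D₀ : ℕ)
    (h : ∀ T : Finset α, (∀ x ∈ T, x ∈ S) → T.card ≤ D₀) : S.encard ≤ D₀ := by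
  by_contra hc
  have h1 : ((D₀ + 1 : ℕ) : ℕ∞) ≤ S.encard := by
    rw [not_le] at hc
    have := Order.add_one_le_of_lt hc
    exact_mod_cast this
  obtain ⟨t, ht, hcard⟩ := Set.exists_subset_encard_eq h1
  have hfin : t.Finite := Set.finite_of_encard_eq_coe hcard
  have h2 := h hfin.toFinset fun x hx => ht (hfin.mem_toFinset.1 hx)
  rw [← Set.ncard_eq_toFinset_card t hfin] at h2
  have h3 : t.ncard = D₀ + 1 := by
    rw [Set.ncard_def, hcard]; rfl
  omega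

theorem exists_D0 {N : ℕ} (P : V N) (r δ M : ℝ) (hδ : 0 < δ) :
    ∃ D₀ : ℕ, ∀ d : ℕ, (d : ℝ≥0∞) * volume (Metric.ball (0 : V N) δ)
      ≤ ENNReal.ofReal M * volume (Metric.ball P r) → d ≤ D₀ := by
  have h1 : volume (Metric.ball (0 : V N) δ) ≠ 0 := (Metric.measure_ball_pos _ _ hδ).ne'
  have h2 : volume (Metric.ball (0 : V N) δ) ≠ ⊤ := measure_ball_lt_top.ne
  have h3 : volume (Metric.ball P r) ≠ ⊤ := measure_ball_lt_top.ne
  set q : ℝ≥0∞ := ENNReal.ofReal M * volume (Metric.ball P r) / volume (Metric.ball (0 : V N) δ)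
    with hq
  have hqt : q ≠ ⊤ := ENNReal.div_ne_top (ENNReal.mul_ne_top ENNReal.ofReal_ne_top h3) h1
  refine ⟨⌈q.toReal⌉₊, fun d hd => ?_⟩
  have h4 : (d : ℝ≥0∞) ≤ q := (ENNReal.le_div_iff_mul_le (Or.inl h1) (Or.inl h2)).2 hd
  have h5 : (d : ℝ) ≤ q.toReal := by
    have := ENNReal.toReal_mono hqt h4
    simpa using this
  have h6 : (d : ℝ) ≤ (⌈q.toReal⌉₊ : ℝ) := h5.trans (Nat.le_ceil _)
  exact_mod_cast h6

/-- the isolation of a nondegenerate graph point in the system -/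
theorem sys_iso {X : Type} [TopologicalSpace X] [T2Space X] {ι : Type} {A : Atl n X ι}
    {f : V n → X} {I D : Set (V n)} (ho : IsOpen (D \ I)) {a : ι}
    {P : V (n + n)} {r : ℝ} {m : ℕ} {G : V (n + n) → V m} {l : V (n + n) → V n}
    (hL : LGr A f I D a P r G l) (Y : V (n + n) → V n) (z : V n) (hz : z ∈ D \ I)
    (hzr : Zf (FF A f a) z ∈ Metric.ball P r)
    (hd : DifferentiableAt ℂ (fun x => Y (Zf (FF A f a) x)) z)
    (hj : (jac (fun x => Y (Zf (FF A f a) x)) z).det ≠ 0) :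
    ∃ ε₁ : ℝ, 0 < ε₁ ∧ ∀ Z ∈ Metric.ball (Zf (FF A f a) z) ε₁, G Z = 0 →
      Y Z = Y (Zf (FF A f a) z) → Z = Zf (FF A f a) z := by
  have h1 := isol _ z hd hj
  have h2 : ∀ᶠ z' in 𝓝 z, z' ∈ D \ I := ho.mem_nhds hz
  let pr : V (n + n) → V n := fun Z i => Z (Fin.castAdd n i)
  have hpr : Continuous pr := by fun_prop
  have hprz : pr (Zf (FF A f a) z) = z := by
    funext i
    simp [pr, Zf]
  have h3 : ∀ᶠ Z in 𝓝 (Zf (FF A f a) z), (pr Z ∈ D \ I) ∧
      (Y (Zf (FF A f a) (pr Z)) = Y (Zf (FF A f a) z) → pr Z = z) := by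
    have ht : Tendsto pr (𝓝 (Zf (FF A f a) z)) (𝓝 z) := by
      have := hpr.tendsto (Zf (FF A f a) z)
      rwa [hprz] at this
    exact ht.eventually (h2.and h1)
  have h4 : ∀ᶠ Z in 𝓝 (Zf (FF A f a) z), Z ∈ Metric.ball P r :=
    Metric.isOpen_ball.mem_nhds hzr
  obtain ⟨ε₁, hε, hb⟩ := Metric.eventually_nhds_iff_ball.1 (h3.and h4)
  refine ⟨ε₁, hε, fun Z hZ hG hY => ?_⟩
  obtain ⟨⟨hZD, hZi⟩, hZr⟩ := hb Z hZ
  let yy : V n := fun i => Z (Fin.natAdd n i)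
  have hZe : Fin.append (pr Z) yy = Z := by
    funext i
    refine Fin.addCases (fun i => ?_) (fun i => ?_) i
    · rw [Fin.append_left]
    · rw [Fin.append_right]
  have h5 := (hL.gr (pr Z) yy (by rw [hZe]; exact hZr) hZD.2).1 (by rw [hZe]; exact hG)
  have h6 : Zf (FF A f a) (pr Z) = Z := by
    have : FF A f a (pr Z) = yy := h5.2
    simp only [Zf, this, hZe]
  have h7 := hZi (by rw [h6]; exact hY)
  rw [← h6, h7]

theorem fbr (hSMO : T_SMO) (hARE : T_ARE) (hMOP : T_MOP) (hJAC : T_JAC) (hGEN : T_GEN)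
    (hDEG : T_DEG) (hCNT : T_CNT) (hISO : T_ISO) : T_FBR := by
  intro n X _ _ ι A f I D hn hM a P r m G l hL
  obtain ⟨ho, -, hUo, -⟩ := hMOP n X ι A f I D hM
  have hN : 1 ≤ n + n := by omega
  set U : Set (V (n + n)) := Metric.ball P r with hUdef
  have hU : IsOpen U := Metric.isOpen_ball
  -- choice of the generic combination
  have hB : ∃ B : Fin (n + n) → Fin m ⊕ Fin n → ℂ, Gnr U B G l 0 ∧
      ∀ (Φ : Fin n → Fin n ⊕ Fin n) (j : ℕ), ∀ᵐ w : V n, Gnr U B G (YY l P Φ (ej j)) w := by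
    have h1 := (hGEN (n + n) m n U G l hU hL.ghol hL.lhol).1 0
    have h2 : ∀ᵐ B : Fin (n + n) → Fin m ⊕ Fin n → ℂ,
        ∀ (Φ : Fin n → Fin n ⊕ Fin n) (j : ℕ), ∀ᵐ w : V n, Gnr U B G (YY l P Φ (ej j)) w := by
      rw [ae_all_iff]
      intro Φ
      rw [ae_all_iff]
      intro j
      exact (hGEN (n + n) m n U G _ hU hL.ghol (YY_diff hL.lhol P Φ (ej j))).2
    haveI : (volume : Measure (Fin m ⊕ Fin n → ℂ)).IsOpenPosMeasure :=
      MeasureTheory.Measure.pi.isOpenPosMeasure _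
    haveI : (volume : Measure (Fin (n + n) → Fin m ⊕ Fin n → ℂ)).IsOpenPosMeasure :=
      MeasureTheory.Measure.pi.isOpenPosMeasure _
    obtain ⟨B, hB1, hB2⟩ := (h1.and h2).exists
    exact ⟨B, hB1, hB2⟩
  obtain ⟨B, hB0, hBj⟩ := hB
  -- the radius
  obtain ⟨r', hr'0, hr'r, hr'U, hr'S⟩ := hISO (n + n) m n U G l 0 B P r hN hU hL.ghol hL.lhol hB0
    (Metric.mem_ball_self hL.rpos) hL.rpos hL.iso r hL.rpos
  have hH0c : ContinuousOn (fun Z => ‖HB B G l 0 Z‖) (Metric.sphere P r') :=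
    ((HB_diff hL.ghol hL.lhol B 0).continuousOn.mono
      (Metric.sphere_subset_closedBall.trans hr'U)).norm
  obtain ⟨δ0, hδ0, hδS⟩ : ∃ δ0 : ℝ, 0 < δ0 ∧ ∀ Z ∈ Metric.sphere P r', δ0 ≤ ‖HB B G l 0 Z‖ := by
    rcases (Metric.sphere P r').eq_empty_or_nonempty with he | hne
    · exact ⟨1, one_pos, fun Z hZ => by rw [he] at hZ; exact absurd hZ (Set.notMem_empty _)⟩
    · obtain ⟨Z0, hZ0, hmin⟩ := (isCompact_sphere P r').exists_isMinOn hne hH0c
      exact ⟨‖HB B G l 0 Z0‖, norm_pos_iff.2 (hr'S Z0 hZ0), fun Z hZ => hmin hZ⟩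
  have hCB := CB_nonneg B
  set c : ℝ := δ0 / (4 * (CB B + 1)) with hc
  have hc0 : 0 < c := by positivity
  have hCBc : CB B * c ≤ δ0 / 4 := by
    rw [hc]
    have h1 : CB B * (δ0 / (4 * (CB B + 1))) = (CB B / (CB B + 1)) * (δ0 / 4) := by
      field_simp
    rw [h1]
    have h2 : CB B / (CB B + 1) ≤ 1 := by
      rw [div_le_one (by positivity)]; linarith
    calc CB B / (CB B + 1) * (δ0 / 4) ≤ 1 * (δ0 / 4) :=
          mul_le_mul_of_nonneg_right h2 (by positivity)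
      _ = δ0 / 4 := one_mul _
  have hr'1 : r' ≤ 1 := by
    have := hL.rle
    linarith
  -- lower bound on the sphere
  have hlow : ∀ (Φ : Fin n → Fin n ⊕ Fin n) (ε : ℝ), 0 ≤ ε → ε ≤ min 1 c → ∀ w : V n, ‖w‖ ≤ c →
      ∀ Z ∈ Metric.sphere P r', δ0 / 2 ≤ ‖HB B G (YY l P Φ ε) w Z‖ := by
    intro Φ ε h0 h1 w hw Z hZ
    have hZP : ‖Z - P‖ = r' := by rw [← dist_eq_norm]; exact Metric.mem_sphere.1 hZ
    have h2 : ‖HB B G (YY l P Φ ε) w Z - HB B G l 0 Z‖ ≤ CB B * (2 * c) := by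
      refine HB_sub B G _ _ w 0 Z (2 * c) (by positivity) fun j => ?_
      have h3 : YY l P Φ ε Z j - w j - (l Z j - (0 : V n) j)
          = (ε : ℂ) * (Z - P) (finSumFinEquiv (Φ j)) - w j := by
        simp only [YY, Pi.zero_apply, Pi.sub_apply]
        ring
      rw [h3]
      refine (norm_sub_le _ _).trans ?_
      have h4 : ‖(ε : ℂ) * (Z - P) (finSumFinEquiv (Φ j))‖ ≤ c := by
        rw [norm_mul, Complex.norm_real, Real.norm_eq_abs, abs_of_nonneg h0]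
        have h5 : ‖(Z - P) (finSumFinEquiv (Φ j))‖ ≤ 1 :=
          (norm_le_pi_norm _ _).trans (hZP.le.trans hr'1)
        calc ε * ‖(Z - P) (finSumFinEquiv (Φ j))‖ ≤ c * 1 :=
              mul_le_mul (h1.trans (min_le_right _ _)) h5 (norm_nonneg _) hc0.le
          _ = c := mul_one _
      have h6 : ‖w j‖ ≤ c := (norm_le_pi_norm w j).trans hw
      linarith
    have h7 := hδS Z hZ
    have h8 : ‖HB B G l 0 Z‖ ≤ ‖HB B G (YY l P Φ ε) w Z‖
        + ‖HB B G (YY l P Φ ε) w Z - HB B G l 0 Z‖ := by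
      have := norm_sub_norm_le (HB B G l 0 Z) (HB B G (YY l P Φ ε) w Z)
      rw [norm_sub_rev] at this
      linarith
    nlinarith
  -- uniform bound of the Jacobians
  obtain ⟨M1, hM1⟩ : ∃ M1 : ℝ, ∀ Z ∈ Metric.closedBall P r', ‖fderiv ℂ (HB B G l 0) Z‖ ≤ M1 := by
    have h1 : ContDiffOn ℂ ∞ (HB B G l 0) U :=
      (hSMO (n + n) (V (n + n)) U _ hU (HB_diff hL.ghol hL.lhol B 0)).1
    have h2 : ContinuousOn (fderiv ℂ (HB B G l 0)) U :=
      h1.continuousOn_fderiv_of_isOpen hU (by norm_cast)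
    obtain ⟨C, hC⟩ := (isCompact_closedBall P r').exists_bound_of_continuousOn (h2.mono hr'U)
    exact ⟨C, hC⟩
  set M2 : ℝ := M1 + ∑ Φ : Fin n → Fin n ⊕ Fin n, ‖LK B Φ‖ with hM2
  have hjb : ∀ (Φ : Fin n → Fin n ⊕ Fin n) (ε : ℝ), 0 ≤ ε → ε ≤ 1 → ∀ w : V n,
      ∀ Z ∈ Metric.closedBall P r', ‖(jac (HB B G (YY l P Φ ε) w) Z).det‖ ^ 2
        ≤ (((n + n).factorial : ℝ) * M2 ^ (n + n)) ^ 2 := by
    intro Φ ε h0 h1 w Z hZ
    refine jac_det_bd _ _ _ ((jac_bd hU B hL.ghol hL.lhol P Φ ε h0 h1 w (hr'U hZ)).trans ?_)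
    have h3 : ‖LK B Φ‖ ≤ ∑ Φ : Fin n → Fin n ⊕ Fin n, ‖LK B Φ‖ :=
      Finset.single_le_sum (f := fun Φ => ‖LK B Φ‖) (fun _ _ => norm_nonneg _)
        (Finset.mem_univ Φ)
    have h4 := hM1 Z hZ
    linarith
  obtain ⟨D₀, hD₀⟩ := exists_D0 P r' (δ0 / 2)
    ((((n + n).factorial : ℝ) * M2 ^ (n + n)) ^ 2) (by positivity)
  refine ⟨r', min 1 c, c, D₀, ⟨hr'0, hr'r, lt_min one_pos hc0, min_le_left _ _, hc0⟩, ?_, ?_⟩
  · -- properness
    intro Φ ε h0 h1 Z hZ hG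
    by_contra hcon
    rw [not_lt] at hcon
    have h2 := hlow Φ ε h0 h1 (YY l P Φ ε Z) hcon Z hZ
    have h3 : HB B G (YY l P Φ ε) (YY l P Φ ε Z) Z = 0 := by
      funext i
      simp [HB, hG]
    rw [h3, norm_zero] at h2
    linarith
  · -- counting
    intro Φ j hj
    have hej0 : 0 ≤ ej j := by unfold ej; positivity
    set Y : V (n + n) → V n := YY l P Φ (ej j) with hY
    set F : V n → V n := FF A f a with hF
    have hFd : ∀ z, z ∈ Ug A f I D a P r' → DifferentiableAt ℂ F z := fun z hz =>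
      (hM.hol a z ⟨hz.1, hz.2.1⟩).differentiableAt
        ((isOpen_src hM ho a).mem_nhds ⟨hz.1, hz.2.1⟩)
    have hzball : ∀ z, z ∈ Ug A f I D a P r' → Zf F z ∈ Metric.ball P r := fun z hz =>
      Metric.ball_subset_ball hr'r.le hz.2.2
    have hYd : ∀ z, z ∈ Ug A f I D a P r' → DifferentiableAt ℂ (fun x => Y (Zf F x)) z :=
      fun z hz => (hJAC n F z P r l (hFd z hz) hL.lhol (hzball z hz) Φ (ej j)).1
    have hcrit : ∀ᵐ w : V n, w ∉ (fun x => Y (Zf F x)) ''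
        {z ∈ Ug A f I D a P r' | (jac (fun x => Y (Zf F x)) z).det = 0} := by
      have h1 := (hARE n (Ug A f I D a P r') (Ug A f I D a P r') (fun x => Y (Zf F x)) (fun _ => 1)
        (hUo a P r') (fun z hz => (hYd z hz).differentiableWithinAt) (hUo a P r').measurableSet
        (subset_refl _) measurable_const).2.2
      exact measure_eq_zero_iff_ae_notMem.1 h1
    have hball : ∀ᵐ w ∂(volume.restrict (Metric.ball (0 : V n) c)), w ∈ Metric.ball (0 : V n) c :=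
      ae_restrict_mem Metric.isOpen_ball.measurableSet
    filter_upwards [ae_restrict_of_ae (hBj Φ j), ae_restrict_of_ae hcrit, hball]
      with w hw1 hw2 hw3
    refine encard_le_of_finset _ _ fun T hT => ?_
    have hwc : ‖w‖ ≤ c := by
      have := Metric.mem_ball.1 hw3
      rw [dist_zero_right] at this
      exact this.le
    have hsph := hlow Φ (ej j) hej0 hj w hwc
    have hHd : DifferentiableOn ℂ (HB B G Y w) U :=
      HB_diff hL.ghol (YY_diff hL.lhol P Φ (ej j)) B w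
    obtain ⟨d, hd1, hd2⟩ := hDEG (n + n) U (HB B G Y w) P r' (δ0 / 2) hN hU hr'0 (by positivity)
      hr'U hHd hsph
    have hdD : d ≤ D₀ := hD₀ d (hd2 _ fun Z hZ =>
      hjb Φ (ej j) hej0 (hj.trans (min_le_left _ _)) w Z (Metric.ball_subset_closedBall hZ))
    classical
    have hinj : Function.Injective (Zf F) := by
      intro z z' h
      funext i
      have := congrFun h (Fin.castAdd n i)
      simpa [Zf] using this
    have hcard : (T.image (Zf F)).card = T.card := Finset.card_image_of_injective _ hinj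
    have hle := hCNT (n + n) U (HB B G Y w) P r' (δ0 / 2) d (T.image (Zf F)) hN hU hr'0
      (by positivity) hr'U hHd hd1 ?_
    · rw [hcard] at hle
      exact hle.trans hdD
    · intro q hq
      obtain ⟨z, hzT, rfl⟩ := Finset.mem_image.1 hq
      obtain ⟨hzU, hzw⟩ := hT z hzT
      have hGz : G (Zf F z) = 0 :=
        (hL.gr z (F z) (hzball z hzU) hzU.1.2).2 ⟨hzU.2.1, rfl⟩
      refine ⟨hzU.2.2, ?_, ?_⟩
      · funext i
        simp only [HB, hGz, hzw, sub_self]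
        simp
      · have hjz : (jac (fun x => Y (Zf F x)) z).det ≠ 0 := by
          intro h
          exact hw2 ⟨z, ⟨hzU, h⟩, hzw⟩
        obtain ⟨ε₁, hε₁, hiso⟩ := sys_iso ho hL Y z hzU.1 (hzball z hzU) (hYd z hzU) hjz
        intro ε hε
        obtain ⟨ρ, h1, h2, -, h3⟩ := hISO (n + n) m n U G Y w B (Zf F z) ε₁ hN hU hL.ghol
          (YY_diff hL.lhol P Φ (ej j)) hw1 (hzball z hzU) hε₁
          (fun Z hZ hG hYZ => hiso Z hZ hG (hYZ.trans hzw.symm)) ε hε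
        exact ⟨ρ, h1, h2, h3⟩

end Pool.Agent.H37.VG
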