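import Pool.Agent.H95.VG.Targets3
import Pool.Agent.H4.VG.Trans
import Pool.Agent.H41.VG.GW2
import Pool.Agent.H65.VG.ARE

/-!
# VG module KPV (MP_6803f2_an): the period depends on the class
-/

open MeasureTheory Set Filter Topology
open scoped ENNReal NNReal ContDiff ComplexConjugate
open Pool.Agent.H95.VG

namespace Pool.Agent.H37.VG

variable {n : ℕ}

theorem K_sub : Metric.closedBall (0 : V n) (3 / 2) ⊆ Metric.ball (0 : V n) 2 :=
  Metric.closedBall_subset_ball (by norm_num)

theorem int_mul {ψ g : V n → ℝ} (hψ : LocallyIntegrableOn ψ (Metric.ball (0 : V n) 2))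
    (hg : ContinuousOn g (Metric.closedBall (0 : V n) (3 / 2)))
    (hgs : ∀ y, g y ≠ 0 → y ∈ Metric.closedBall (0 : V n) (3 / 2)) :
    IntegrableOn (fun y => g y * ψ y) (Metric.ball (0 : V n) 2) := by
  have hK : IsCompact (Metric.closedBall (0 : V n) (3 / 2)) := isCompact_closedBall _ _
  have h1 : IntegrableOn ψ (Metric.closedBall (0 : V n) (3 / 2)) := by
    rw [locallyIntegrableOn_iff Metric.isOpen_ball.isLocallyClosed] at hψ
    exact hψ _ K_sub hK
  have h2 : IntegrableOn (fun y => g y * ψ y) (Metric.closedBall (0 : V n) (3 / 2)) :=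
    h1.continuousOn_mul hg hK
  have h3 : Function.support (fun y => g y * ψ y) ⊆ Metric.closedBall (0 : V n) (3 / 2) :=
    fun y hy => hgs y (left_ne_zero_of_mul hy)
  exact ((integrableOn_iff_integrable_of_support_subset h3).1 h2).integrableOn

/-- directional derivative -/
noncomputable def qd (w : V n → ℝ) (v : V n) (y : V n) : ℝ := fderiv ℝ w y v

theorem qd_smooth {w : V n → ℝ} (hw : ContDiff ℝ ∞ w) (v : V n) : ContDiff ℝ ∞ (qd w v) :=
  (hw.fderiv_right (m := ∞) (by norm_num)).clm_apply contDiff_const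

theorem qd_supp {w : V n → ℝ} (hs : ∀ y, w y ≠ 0 → y ∈ Metric.closedBall (0 : V n) (3 / 2))
    (v : V n) {y : V n} (hy : qd w v y ≠ 0) : y ∈ Metric.closedBall (0 : V n) (3 / 2) := by
  by_contra hc
  apply hy
  have : w =ᶠ[𝓝 y] fun _ => (0 : ℝ) := by
    filter_upwards [(Metric.isClosed_closedBall (x := (0 : V n)) (ε := 3 / 2)).isOpen_compl.mem_nhds
      hc] with y' hy'
    by_contra h
    exact hy' (hs y' h)
  unfold qd
  rw [this.fderiv_eq]
  simp

theorem qd_tsupp {w : V n → ℝ} (hs : ∀ y, w y ≠ 0 → y ∈ Metric.closedBall (0 : V n) (3 / 2))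
    (v : V n) : tsupport (qd w v) ⊆ Metric.closedBall (0 : V n) (3 / 2) :=
  closure_minimal (fun _ hy => qd_supp hs v hy) Metric.isClosed_closedBall

theorem re_b10 (β : V n →L[ℝ] ℝ) (w : V n → ℝ) (y v : V n) :
    (b10 β v * conj (dr w y v)).re = (1 / 4 : ℝ) * (qd w v y * β v)
      + (1 / 4 : ℝ) * (qd w (Complex.I • v) y * β (Complex.I • v)) := by
  have h1 : b10 β v = ((β v / 2 : ℝ) : ℂ) + ((-(β (Complex.I • v)) / 2 : ℝ) : ℂ) * Complex.I := by
    unfold b10
    push_cast
    ring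
  have h2 : dr w y v = ((qd w v y / 2 : ℝ) : ℂ)
      + ((-(qd w (Complex.I • v) y) / 2 : ℝ) : ℂ) * Complex.I := by
    unfold dr qd
    push_cast
    ring
  rw [h1, h2]
  simp only [map_add, map_mul, Complex.conj_ofReal, Complex.conj_I, Complex.mul_re,
    Complex.add_re, Complex.add_im, Complex.ofReal_re, Complex.ofReal_im, Complex.I_re,
    Complex.I_im, Complex.mul_im, Complex.neg_re, Complex.neg_im]
  ring

theorem ibp (hWGS : T_WGS) {w F : V n → ℝ} {β : V n → V n →L[ℝ] ℝ} (hw : ContDiff ℝ ∞ w)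
    (hws : ∀ y, w y ≠ 0 → y ∈ Metric.closedBall (0 : V n) (3 / 2))
    (hF : LocallyIntegrableOn F (Metric.ball (0 : V n) 2))
    (hβ : LocallyIntegrableOn β (Metric.ball (0 : V n) 2))
    (hW : WGr (Metric.ball (0 : V n) 2) F β) :
    ∫ y in Metric.ball (0 : V n) 2, ∑ k, (b10 (β y) (ek k) * conj (dr w y (ek k))).re
      = - ∫ y in Metric.ball (0 : V n) 2, (∑ k, lev w y (ek k)) * F y := by
  have hβv : ∀ v : V n, LocallyIntegrableOn (fun y => β y v) (Metric.ball (0 : V n) 2) := by
    intro v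
    rw [locallyIntegrableOn_iff Metric.isOpen_ball.isLocallyClosed] at hβ ⊢
    intro K hK hKc
    exact (hβ K hK hKc).apply_continuousLinearMap v
  have hi1 : ∀ v : V n, IntegrableOn (fun y => qd w v y * β y v) (Metric.ball (0 : V n) 2) :=
    fun v => int_mul (hβv v) (qd_smooth hw v).continuous.continuousOn fun y hy => qd_supp hws v hy
  have hi2 : ∀ v : V n, IntegrableOn (fun y => qd (qd w v) v y * F y) (Metric.ball (0 : V n) 2) :=
    fun v => int_mul hF (qd_smooth (qd_smooth hw v) v).continuous.continuousOn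
      fun y hy => qd_supp (fun y h => qd_supp hws v h) v hy
  have hsw : ∀ v : V n, ∫ y in Metric.ball (0 : V n) 2, qd w v y * β y v
      = - ∫ y in Metric.ball (0 : V n) 2, qd (qd w v) v y * F y := by
    intro v
    obtain ⟨g, hg⟩ : ∃ g : V n → ℝ, ContDiffOn ℝ ∞ g (Metric.ball (0 : V n) 2) :=
      ⟨fun _ => 0, contDiffOn_const⟩
    have h1 := (hWGS n (Metric.ball (0 : V n) 2) g Metric.isOpen_ball hg).2.2 F β (qd w v) v hW hF
      hβ (qd_smooth hw v)
      (HasCompactSupport.of_support_subset_isCompact (isCompact_closedBall _ _)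
        fun y hy => qd_supp hws v hy) ((qd_tsupp hws v).trans K_sub)
    rw [h1]
    congr 1
    refine setIntegral_congr_fun measurableSet_ball fun y _ => ?_
    change F y * fderiv ℝ (qd w v) y v = fderiv ℝ (qd w v) y v * F y
    ring
  have e1 : ∀ y, ∑ k, (b10 (β y) (ek k) * conj (dr w y (ek k))).re
      = ∑ k : Fin n, ((1 / 4 : ℝ) * (qd w (ek k) y * β y (ek k))
      + (1 / 4 : ℝ) * (qd w (Complex.I • ek k) y * β y (Complex.I • ek k))) := fun y =>
    Finset.sum_congr rfl fun k _ => re_b10 _ _ _ _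
  have e2 : ∀ y, (∑ k, lev w y (ek k)) * F y
      = ∑ k : Fin n, ((1 / 4 : ℝ) * (qd (qd w (ek k)) (ek k) y * F y)
      + (1 / 4 : ℝ) * (qd (qd w (Complex.I • ek k)) (Complex.I • ek k) y * F y)) := by
    intro y
    rw [Finset.sum_mul]
    refine Finset.sum_congr rfl fun k _ => ?_
    unfold lev qd
    rw [smul_eq_mul]
    ring
  simp only [e1, e2]
  have j1 : ∀ k : Fin n, IntegrableOn (fun y => (1 / 4 : ℝ) * (qd w (ek k) y * β y (ek k))
      + (1 / 4 : ℝ) * (qd w (Complex.I • ek k) y * β y (Complex.I • ek k)))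
      (Metric.ball (0 : V n) 2) := fun k =>
    ((hi1 (ek k)).const_mul _).add ((hi1 (Complex.I • ek k)).const_mul _)
  have j2 : ∀ k : Fin n, IntegrableOn (fun y => (1 / 4 : ℝ) * (qd (qd w (ek k)) (ek k) y * F y)
      + (1 / 4 : ℝ) * (qd (qd w (Complex.I • ek k)) (Complex.I • ek k) y * F y))
      (Metric.ball (0 : V n) 2) := fun k =>
    ((hi2 (ek k)).const_mul _).add ((hi2 (Complex.I • ek k)).const_mul _)
  rw [integral_finsetSum _ (fun k _ => j1 k), integral_finsetSum _ (fun k _ => j2 k),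
    ← Finset.sum_neg_distrib]
  refine Finset.sum_congr rfl fun k _ => ?_
  rw [integral_add ((hi1 (ek k)).const_mul _) ((hi1 (Complex.I • ek k)).const_mul _),
    integral_add ((hi2 (ek k)).const_mul _) ((hi2 (Complex.I • ek k)).const_mul _)]
  simp only [integral_const_mul]
  rw [hsw, hsw]
  ring

variable {X : Type} [TopologicalSpace X] {ι : Type}

/-- the Levi trace of the weight -/
noncomputable def Lam (w : ι → V n → ℝ) (a : ι) (y : V n) : ℝ := ∑ k, lev (w a) y (ek k)

/-- one term of the Gauduchon equation, at the point `u` of the chart `c` -/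
noncomputable def Ht (A : Atl n X ι) (w : ι → V n → ℝ) (c a : ι) (u : V n) : ℝ :=
  ((A.φ a).source).indicator (fun x => tj A c a x * ∑ k, lev (w a) (A.φ a x) (ek k))
    ((A.φ c).symm u)

theorem tdo_image (A : Atl n X ι) (a c : ι) : tr A c a '' tdo A c a = tdo A a c := by
  ext y
  constructor
  · rintro ⟨u, hu, rfl⟩
    exact Pool.Agent.H4.VG.tr_maps A c a hu
  · intro hy
    exact ⟨tr A a c y, Pool.Agent.H4.VG.tr_maps A a c hy, Pool.Agent.H4.VG.tr_tr A hy⟩

theorem change [Fintype ι] {A : Atl n X ι} {w : ι → V n → ℝ} {ρ : ι → X → ℝ} (hρ : PU A ρ)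
    (hw : ∀ a, ContDiff ℝ ∞ (w a))
    (hws : ∀ a y, w a y ≠ 0 → y ∈ Metric.closedBall (0 : V n) (3 / 2)) {Ψ : ι → V n → ℝ}
    (hΨ : ∀ a, LocallyIntegrableOn (Ψ a) (Metric.ball (0 : V n) 2))
    (hc : ∀ a b, ∀ᵐ y ∂(volume.restrict (tdo A a b)), Ψ a y = Ψ b (tr A a b y)) (a c : ι) :
    IntegrableOn (fun y => (ρ c ((A.φ a).symm y) * Lam w a y) * Ψ a y)
      (Metric.ball (0 : V n) 2) ∧
    IntegrableOn (fun u => ρ c ((A.φ c).symm u) * Ψ c u * Ht A w c a u)
      (Metric.ball (0 : V n) 2) ∧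
    ∫ y in Metric.ball (0 : V n) 2, (ρ c ((A.φ a).symm y) * Lam w a y) * Ψ a y
      = ∫ u in Metric.ball (0 : V n) 2, ρ c ((A.φ c).symm u) * Ψ c u * Ht A w c a u := by
  have hlam : ∀ y, Lam w a y ≠ 0 → y ∈ Metric.closedBall (0 : V n) (3 / 2) := fun y hy =>
    Pool.Agent.H41.VG.lam_supp (hws a) hy
  have hw2 : ContDiff ℝ 2 (w a) := by exact_mod_cast contDiff_infty.1 (hw a) 2
  have hlc : Continuous (Lam w a) := Pool.Agent.H41.VG.continuous_lam hw2
  have hKt : Metric.closedBall (0 : V n) (3 / 2) ⊆ (A.φ a).target :=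
    Pool.Agent.H41.VG.ball_target A a
  have hf : IntegrableOn (fun y => (ρ c ((A.φ a).symm y) * Lam w a y) * Ψ a y)
      (Metric.ball (0 : V n) 2) := by
    refine int_mul (g := fun y => ρ c ((A.φ a).symm y) * Lam w a y) (hΨ a) ?_ ?_
    · exact ((hρ.cont c).comp_continuousOn ((A.φ a).continuousOn_symm.mono hKt)).mul
        hlc.continuousOn
    · intro y hy
      exact hlam y (right_ne_zero_of_mul hy)
  -- restriction to the transition domain
  have hsub : tdo A a c ⊆ Metric.ball (0 : V n) 2 := fun y hy => hy.1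
  have hsub' : tdo A c a ⊆ Metric.ball (0 : V n) 2 := fun y hy => hy.1
  have hz : ∀ y ∈ Metric.ball (0 : V n) 2 \ tdo A a c,
      (ρ c ((A.φ a).symm y) * Lam w a y) * Ψ a y = 0 := by
    intro y hy
    by_contra hne
    have h1 : ρ c ((A.φ a).symm y) ≠ 0 := left_ne_zero_of_mul (left_ne_zero_of_mul hne)
    obtain ⟨h2, h3⟩ := hρ.supp c _ h1
    exact hy.2 ⟨hy.1, h2, Metric.closedBall_subset_ball (by norm_num) h3⟩
  have hz' : ∀ u ∈ Metric.ball (0 : V n) 2 \ tdo A c a,
      ρ c ((A.φ c).symm u) * Ψ c u * Ht A w c a u = 0 := by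
    intro u hu
    by_contra hne
    have h1 : Ht A w c a u ≠ 0 := right_ne_zero_of_mul hne
    unfold Ht at h1
    by_cases h2 : (A.φ c).symm u ∈ (A.φ a).source
    · rw [indicator_of_mem h2] at h1
      have h3 := hlam _ (right_ne_zero_of_mul h1)
      exact hu.2 ⟨hu.1, h2, K_sub h3⟩
    · exact h1 (indicator_of_notMem h2 _)
  have hm : MeasurableSet (tdo A c a) := (Pool.Agent.H4.VG.tdo_open A c a).measurableSet
  have hder : ∀ u ∈ tdo A c a, HasFDerivWithinAt (tr A c a) (fderiv ℝ (tr A c a) u) (tdo A c a) u :=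
    fun u hu => (Pool.Agent.H4.VG.tr_diffAtR A hu).hasFDerivAt.hasFDerivWithinAt
  have hinj := Pool.Agent.H4.VG.tr_inj A c a
  have hae : (fun u => |(fderiv ℝ (tr A c a) u).det| •
      ((ρ c ((A.φ a).symm (tr A c a u)) * Lam w a (tr A c a u)) * Ψ a (tr A c a u)))
      =ᵐ[volume.restrict (tdo A c a)]
      fun u => ρ c ((A.φ c).symm u) * Ψ c u * Ht A w c a u := by
    filter_upwards [hc c a, ae_restrict_mem hm] with u hu hmem
    have h1 : (A.φ a).symm (tr A c a u) = (A.φ c).symm u := Pool.Agent.H4.VG.symm_tr A hmem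
    have h2 : |(fderiv ℝ (tr A c a) u).det| = ‖(jac (tr A c a) u).det‖ ^ 2 := by
      rw [Pool.Agent.H65.VG.det_real (Pool.Agent.H4.VG.tr_diffAt A hmem),
        abs_of_nonneg (by positivity)]
    have h3 : (A.φ c) ((A.φ c).symm u) = u :=
      (A.φ c).right_inv (Pool.Agent.H4.VG.ball_target A c hmem.1)
    have h4 : Ht A w c a u = ‖(jac (tr A c a) u).det‖ ^ 2 * Lam w a (tr A c a u) := by
      unfold Ht
      rw [indicator_of_mem hmem.2.1]
      unfold tj
      rw [h3]
      rfl
    rw [h1, h2, h4, ← hu, smul_eq_mul]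
    ring
  have hi1 : IntegrableOn (fun y => (ρ c ((A.φ a).symm y) * Lam w a y) * Ψ a y)
      (tr A c a '' tdo A c a) := by
    rw [tdo_image]
    exact hf.mono_set hsub
  have hi2 := (integrableOn_image_iff_integrableOn_abs_det_fderiv_smul volume hm hder hinj _).1 hi1
  have hi3 : IntegrableOn (fun u => ρ c ((A.φ c).symm u) * Ψ c u * Ht A w c a u) (tdo A c a) :=
    hi2.congr_fun_ae hae
  refine ⟨hf, hi3.of_forall_sdiff_eq_zero measurableSet_ball hz', ?_⟩
  rw [setIntegral_eq_of_subset_of_forall_sdiff_eq_zero measurableSet_ball hsub hz,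
    setIntegral_eq_of_subset_of_forall_sdiff_eq_zero measurableSet_ball hsub' hz',
    ← tdo_image A a c,
    integral_image_eq_integral_abs_det_fderiv_smul volume hm hder hinj]
  exact integral_congr_ae hae

theorem kpv (hPU : T_PU) (hWGS : T_WGS) : T_KPV := by
  intro n X _ _ _ ι _ A w β h F hG hC hβ hF hW hcomp
  classical
  obtain ⟨ρ, hρ⟩ := hPU n X ι A
  have hO : IsOpen (Metric.ball (0 : V n) 2) := Metric.isOpen_ball
  -- the terms with `F`
  have hFt : ∀ a, ∫ y in Metric.ball (0 : V n) 2,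
      ∑ k, (b10 (β a y) (ek k) * conj (dr (w a) y (ek k))).re
      = - ∫ y in Metric.ball (0 : V n) 2, Lam w a y * F a y := fun a =>
    ibp hWGS (hG.smooth a) (hG.supp a) (hF a) (hβ a).locallyIntegrableOn (hW a)
  -- the terms with `h`
  have hhc : ∀ a, ContinuousOn (h a) (Metric.ball (0 : V n) 2) := fun a =>
    (hC.smooth a).continuousOn
  have hhl : ∀ a, LocallyIntegrableOn (h a) (Metric.ball (0 : V n) 2) := fun a =>
    (hhc a).locallyIntegrableOn measurableSet_ball
  have hht : ∀ a, ∫ y, ∑ k, (dr (h a) y (ek k) * conj (dr (w a) y (ek k))).re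
      = - ∫ y in Metric.ball (0 : V n) 2, Lam w a y * h a y := by
    intro a
    have h1 : ∀ y, y ∉ Metric.ball (0 : V n) 2 →
        ∑ k, (dr (h a) y (ek k) * conj (dr (w a) y (ek k))).re = 0 := by
      intro y hy
      refine Finset.sum_eq_zero fun k _ => ?_
      have h2 : ∀ v : V n, qd (w a) v y = 0 := by
        intro v
        by_contra hne
        exact hy (K_sub (qd_supp (hG.supp a) v hne))
      have h3 : dr (w a) y (ek k) = 0 := by
        have e1 := h2 (ek k)
        have e2 := h2 (Complex.I • ek k)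
        unfold qd at e1 e2
        unfold dr
        rw [e1, e2]
        simp
      rw [h3]
      simp
    rw [← setIntegral_eq_integral_of_forall_compl_eq_zero h1]
    have h4 : ContinuousOn (fderiv ℝ (h a)) (Metric.ball (0 : V n) 2) :=
      (hC.smooth a).continuousOn_fderiv_of_isOpen hO (by norm_num)
    exact ibp hWGS (hG.smooth a) (hG.supp a) (hhl a)
      (h4.locallyIntegrableOn measurableSet_ball)
      (hWGS n _ (h a) hO (hC.smooth a)).1
  -- the difference
  set Ψ : ι → V n → ℝ := fun a y => h a y - F a y with hΨ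
  have hΨl : ∀ a, LocallyIntegrableOn (Ψ a) (Metric.ball (0 : V n) 2) := fun a =>
    (hhl a).sub (hF a)
  have hch := change hρ hG.smooth hG.supp hΨl hcomp
  have hlamc : ∀ a, ContinuousOn (Lam w a) (Metric.closedBall (0 : V n) (3 / 2)) := fun a =>
    (Pool.Agent.H41.VG.continuous_lam
      (by exact_mod_cast contDiff_infty.1 (hG.smooth a) 2)).continuousOn
  have hlams : ∀ a y, Lam w a y ≠ 0 → y ∈ Metric.closedBall (0 : V n) (3 / 2) := fun a y hy =>
    Pool.Agent.H41.VG.lam_supp (hG.supp a) hy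
  have hzero : ∑ a, ∫ y in Metric.ball (0 : V n) 2, Lam w a y * Ψ a y = 0 := by
    have h1 : ∀ a, ∫ y in Metric.ball (0 : V n) 2, Lam w a y * Ψ a y
        = ∑ c, ∫ u in Metric.ball (0 : V n) 2, ρ c ((A.φ c).symm u) * Ψ c u * Ht A w c a u := by
      intro a
      have h2 : ∀ y, Lam w a y * Ψ a y = ∑ c, (ρ c ((A.φ a).symm y) * Lam w a y) * Ψ a y := by
        intro y
        rw [← Finset.sum_mul, ← Finset.sum_mul, hρ.sum, one_mul]
      simp only [h2]
      rw [integral_finsetSum _ (fun c _ => (hch a c).1)]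
      exact Finset.sum_congr rfl fun c _ => (hch a c).2.2
    simp only [h1]
    rw [Finset.sum_comm]
    refine Finset.sum_eq_zero fun c _ => ?_
    rw [← integral_finsetSum _ (fun a _ => (hch a c).2.1)]
    have h3 : ∀ u ∈ Metric.ball (0 : V n) 2,
        ∑ a, ρ c ((A.φ c).symm u) * Ψ c u * Ht A w c a u = 0 := by
      intro u hu
      rw [← Finset.mul_sum]
      have h4 : (A.φ c).symm u ∈ (A.φ c).source :=
        (A.φ c).map_target (Pool.Agent.H4.VG.ball_target A c hu)
      have h5 := hG.gau c _ h4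
      have h6 : ∑ a, Ht A w c a u = 0 := h5
      rw [h6, mul_zero]
    rw [setIntegral_congr_fun measurableSet_ball h3]
    simp
  have hsplit : ∀ a, ∫ y in Metric.ball (0 : V n) 2, Lam w a y * Ψ a y
      = (∫ y in Metric.ball (0 : V n) 2, Lam w a y * h a y)
        - ∫ y in Metric.ball (0 : V n) 2, Lam w a y * F a y := by
    intro a
    rw [← integral_sub (int_mul (hhl a) (hlamc a) (hlams a)) (int_mul (hF a) (hlamc a) (hlams a))]
    refine setIntegral_congr_fun measurableSet_ball fun y _ => ?_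
    simp only [hΨ]
    ring
  simp only [hsplit, Finset.sum_sub_distrib] at hzero
  unfold kap
  simp only [hht, hFt, Finset.sum_neg_distrib]
  linarith

end Pool.Agent.H37.VG
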